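import Pool.Agent.Helper67.LM.Defs
import Pool.Agent.Helper47.AQ.Gen

/-!
# MP_6fb600_gt, project LM: packet CEN (facet centroids of a minimal simplex)
-/

open MeasureTheory Set Filter Topology
open scoped ENNReal
open Pool.Agent.Helper47.AQ
open Pool.Agent.Helper67.LM

noncomputable section

namespace Pool.Agent.Helper77.LM

variable {ι : Type} [Fintype ι] [DecidableEq ι]

/-- For small `t > 0` the product `∏ (1 - t g_i)` is greater than `1` if `∑ g_i < 0`. -/
lemma prod_gt_one (g : ι → ℝ) (hg : ∑ i, g i < 0) :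
    ∀ᶠ t : ℝ in 𝓝[>] 0, 1 < ∏ i, (1 - t * g i) := by
  have hd : HasDerivAt (fun t : ℝ => ∏ i, (1 - t * g i))
      (∑ i, (∏ j ∈ Finset.univ.erase i, (1 - (0 : ℝ) * g j)) • (-(g i))) 0 := by
    have hi : ∀ i ∈ (Finset.univ : Finset ι), HasDerivAt (fun t : ℝ => 1 - t * g i) (-(g i)) 0 := by
      intro i _
      have h1 := ((hasDerivAt_id (0 : ℝ)).mul_const (g i)).const_sub 1
      simpa using h1
    exact HasDerivAt.fun_finsetProd hi
  have hs : (∑ i, (∏ j ∈ Finset.univ.erase i, (1 - (0 : ℝ) * g j)) • (-(g i))) = -∑ i, g i := by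
    simp
  rw [hs] at hd
  rw [hasDerivAt_iff_tendsto_slope] at hd
  have h2 : ∀ᶠ t in 𝓝[≠] (0 : ℝ), 0 < slope (fun t : ℝ => ∏ i, (1 - t * g i)) 0 t :=
    hd.eventually (lt_mem_nhds (by linarith))
  have h3 : ∀ᶠ t in 𝓝[>] (0 : ℝ), 0 < slope (fun t : ℝ => ∏ i, (1 - t * g i)) 0 t :=
    h2.filter_mono (nhdsWithin_mono _ (fun x hx => ne_of_gt hx))
  filter_upwards [h3, self_mem_nhdsWithin] with t ht ht0
  have ht0' : 0 < t := ht0
  rw [slope_def_field] at ht
  simp only [zero_mul, sub_zero, Finset.prod_const_one] at ht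
  have := (div_pos_iff_of_pos_right ht0').1 ht
  linarith

/-- The set `T` is a simplex if it has nonempty interior. -/
lemma isSimplex_T (h : (interior (T ι)).Nonempty) : IsSimplex (T ι) := by
  refine ⟨h, ?_⟩
  obtain ⟨σ, hσ, v, hv, hT⟩ := simplexW (fun _ : ι => (1 : ℝ)) (fun _ => one_pos)
  refine ⟨σ, hσ, v, hv, ?_⟩
  rw [← hT]
  ext x
  simp [T]

/-- The diagonal map. -/
def dg (d : ι → ℝ) (hd : ∀ i, d i ≠ 0) : (ι → ℝ) ≃ₗ[ℝ] (ι → ℝ) where
  toFun x i := d i * x i
  map_add' x y := by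
    ext i
    simp only [Pi.add_apply]
    ring
  map_smul' c x := by
    ext i
    simp only [Pi.smul_apply, smul_eq_mul, RingHom.id_apply]
    ring
  invFun x i := (d i)⁻¹ * x i
  left_inv x := by
    ext i
    simp only
    rw [← mul_assoc, inv_mul_cancel₀ (hd i), one_mul]
  right_inv x := by
    ext i
    simp only
    rw [← mul_assoc, mul_inv_cancel₀ (hd i), one_mul]

lemma det_dg (d : ι → ℝ) (hd : ∀ i, d i ≠ 0) :
    LinearMap.det (dg d hd : (ι → ℝ) →ₗ[ℝ] (ι → ℝ)) = ∏ i, d i := by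
  have h : (dg d hd : (ι → ℝ) →ₗ[ℝ] (ι → ℝ)) = Matrix.toLin' (Matrix.diagonal d) := by
    ext x i
    simp [dg, Matrix.mulVec_diagonal]
  rw [h, LinearMap.det_toLin', Matrix.det_diagonal]

omit [DecidableEq ι] in
/-- The right angled simplex with weights is the image of `T` under the diagonal map. -/
lemma image_T (w : ι → ℝ) (hw : ∀ i, 0 < w i) :
    (dg (fun i => (w i)⁻¹) (fun i => inv_ne_zero (hw i).ne')) '' (T ι) =
      {x : ι → ℝ | (∀ i, 0 ≤ x i) ∧ ∑ i, x i * w i ≤ 1} := by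
  ext x
  constructor
  · rintro ⟨y, hy, rfl⟩
    refine ⟨fun i => mul_nonneg (inv_nonneg.2 (hw i).le) (hy.1 i), ?_⟩
    have : ∑ i, (dg (fun i => (w i)⁻¹) (fun i => inv_ne_zero (hw i).ne')) y i * w i = ∑ i, y i := by
      refine Finset.sum_congr rfl fun i _ => ?_
      have := (hw i).ne'
      change (w i)⁻¹ * y i * w i = y i
      field_simp
    rw [this]
    exact hy.2
  · rintro ⟨h0, h1⟩
    refine ⟨fun i => x i * w i, ⟨fun i => mul_nonneg (h0 i) (hw i).le, h1⟩, ?_⟩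
    ext i
    have := (hw i).ne'
    change (w i)⁻¹ * (x i * w i) = x i
    field_simp

/-- The case of the facet `∑ x_i = 1`. -/
lemma cen_none [Nonempty ι] {K : Set (ι → ℝ)} (hK : IsBody K) (hT : K ⊆ T ι)
    (hmin : ∀ D : Set (ι → ℝ), IsSimplex D → K ⊆ D → volume (T ι) ≤ volume D) :
    (fun _ => 1 / (Fintype.card ι : ℝ)) ∈ K := by
  by_contra hc
  obtain ⟨f, u, hf, hfc⟩ := geometric_hahn_banach_closed_point hK.conv hK.comp.isClosed hc
  have hn : (0 : ℝ) < Fintype.card ι := by exact_mod_cast Fintype.card_pos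
  -- coordinates of `f`
  have hfx : ∀ x : ι → ℝ, f x = ∑ i, x i * f (Pi.single i 1) := by
    intro x
    conv_lhs => rw [pi_eq_sum_univ' x]
    rw [map_sum]
    refine Finset.sum_congr rfl fun i _ => ?_
    rw [map_smul, smul_eq_mul]
  set g : ι → ℝ := fun i => u - f (Pi.single i 1) with hg
  have hgsum : ∑ i, g i < 0 := by
    rw [hfx, ← Finset.mul_sum, one_div, ← div_eq_inv_mul, lt_div_iff₀ hn] at hfc
    rw [hg, Finset.sum_sub_distrib]
    simp only [Finset.sum_const, Finset.card_univ, nsmul_eq_mul]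
    linarith
  have hint : (interior (T ι)).Nonempty := hK.int.mono (interior_mono hT)
  have hTs := isSimplex_T hint
  have hvT0 : 0 < volume (T ι) :=
    lt_of_lt_of_le (isOpen_interior.measure_pos volume hint) (measure_mono interior_subset)
  have hvT1 : volume (T ι) < ⊤ := hTs.isBody.comp.measure_lt_top
  -- choose `t`
  have ev1 := prod_gt_one g hgsum
  have ev2 : ∀ᶠ t : ℝ in 𝓝[>] 0, ∀ i, 0 < 1 - t * g i := by
    rw [Filter.eventually_all]
    intro i
    have hcont : Continuous (fun t : ℝ => 1 - t * g i) := by fun_prop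
    have h0 : (0 : ℝ) < 1 - 0 * g i := by norm_num
    exact (hcont.tendsto 0).eventually (lt_mem_nhds h0) |>.filter_mono nhdsWithin_le_nhds
  have ev3 : ∀ᶠ t : ℝ in 𝓝[>] 0, 0 < 1 - t * u := by
    have hcont : Continuous (fun t : ℝ => 1 - t * u) := by fun_prop
    have h0 : (0 : ℝ) < 1 - 0 * u := by norm_num
    exact (hcont.tendsto 0).eventually (lt_mem_nhds h0) |>.filter_mono nhdsWithin_le_nhds
  obtain ⟨t, ht1, hw, ht3, ht0⟩ := (ev1.and (ev2.and (ev3.and self_mem_nhdsWithin))).exists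
  have ht0' : 0 < t := ht0
  set w : ι → ℝ := fun i => 1 - t * g i with hwdef
  have hDs : IsSimplex ({x : ι → ℝ | (∀ i, 0 ≤ x i) ∧ ∑ i, x i * w i ≤ 1}) := by
    rw [← image_T w hw]
    exact hTs.affine (dg (fun i => (w i)⁻¹) (fun i => inv_ne_zero (hw i).ne')).toAffineEquiv
  have hKD : K ⊆ {x : ι → ℝ | (∀ i, 0 ≤ x i) ∧ ∑ i, x i * w i ≤ 1} := by
    intro x hx
    refine ⟨(hT hx).1, ?_⟩
    have h1 := (hT hx).2
    have h2 := hf x hx
    rw [hfx] at h2
    have e1 : ∑ i, x i * w i = ∑ i, x i - t * (u * ∑ i, x i - ∑ i, x i * f (Pi.single i 1)) := by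
      rw [mul_sub, Finset.mul_sum, Finset.mul_sum, Finset.mul_sum, ← Finset.sum_sub_distrib,
        ← Finset.sum_sub_distrib]
      refine Finset.sum_congr rfl fun i _ => ?_
      simp only [hwdef, hg]
      ring
    rw [e1]
    set S := ∑ i, x i
    set P := ∑ i, x i * f (Pi.single i 1)
    have h3 : 0 ≤ (1 - S) * (1 - t * u) := mul_nonneg (by linarith) ht3.le
    have h4 : 0 ≤ t * (u - P) := mul_nonneg ht0'.le (by linarith)
    nlinarith
  have hle := hmin _ hDs hKD
  rw [← image_T w hw] at hle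
  have hv : volume ((dg (fun i => (w i)⁻¹) (fun i => inv_ne_zero (hw i).ne')) '' (T ι)) =
      ENNReal.ofReal (∏ i, (w i)⁻¹) * volume (T ι) := by
    have h1 := Measure.addHaar_image_linearMap (volume : Measure (ι → ℝ))
      (dg (fun i => (w i)⁻¹) (fun i => inv_ne_zero (hw i).ne') : (ι → ℝ) →ₗ[ℝ] (ι → ℝ)) (T ι)
    rw [det_dg, abs_of_pos (Finset.prod_pos fun i _ => inv_pos.2 (hw i))] at h1
    exact h1
  rw [hv] at hle
  have hlt : ENNReal.ofReal (∏ i, (w i)⁻¹) < 1 := by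
    rw [← ENNReal.ofReal_one, ENNReal.ofReal_lt_ofReal_iff one_pos, Finset.prod_inv_distrib]
    exact inv_lt_one_of_one_lt₀ ht1
  have : ENNReal.ofReal (∏ i, (w i)⁻¹) * volume (T ι) < 1 * volume (T ι) :=
    (ENNReal.mul_lt_mul_iff_left hvT0.ne' hvT1.ne).2 hlt
  rw [one_mul] at this
  exact absurd hle (not_le.2 this)

/-- **CEN.**  The hypothesis `hsym` is the statement of `SYM` (only the involution, the invariance of
`T`, the affine equivalence and the invariance of the volume are used). -/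
theorem cen (hsym : ∀ o : Option ι,
      Function.Involutive (co o : (ι → ℝ) → (ι → ℝ)) ∧ (∀ x : ι → ℝ, co o x ∈ T ι ↔ x ∈ T ι) ∧
      (∀ (x : ι → ℝ) (o' : Option ι), bc (co o x) o' = bc x (Equiv.swap none o o')) ∧
      (∃ A : (ι → ℝ) ≃ᵃ[ℝ] (ι → ℝ), ∀ x, A x = co o x) ∧
      (∀ S : Set (ι → ℝ), volume (co o '' S) = volume S) ∧
      MeasurePreserving (co o : (ι → ℝ) → (ι → ℝ)) volume volume)
    [Nonempty ι] {K : Set (ι → ℝ)} (hK : IsBody K) (hT : K ⊆ T ι)
    (hmin : ∀ D : Set (ι → ℝ), IsSimplex D → K ⊆ D → volume (T ι) ≤ volume D) (o : Option ι) :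
    co o (fun _ => 1 / (Fintype.card ι : ℝ)) ∈ K := by
  obtain ⟨hinv, hTo, -, ⟨A, hA⟩, hvol, -⟩ := hsym o
  have himg : ∀ S : Set (ι → ℝ), A '' S = co o '' S := fun S => image_congr fun x _ => hA x
  have hK' : IsBody (co o '' K) := by
    rw [← himg]
    exact hK.affine A
  have hT' : co o '' K ⊆ T ι := by
    rintro _ ⟨y, hy, rfl⟩
    exact (hTo y).2 (hT hy)
  have hmin' : ∀ D : Set (ι → ℝ), IsSimplex D → co o '' K ⊆ D → volume (T ι) ≤ volume D := by
    intro D hD hKD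
    have h1 : IsSimplex (co o '' D) := by
      rw [← himg]
      exact hD.affine A
    have h2 : K ⊆ co o '' D := by
      intro y hy
      exact ⟨co o y, hKD ⟨y, hy, rfl⟩, hinv y⟩
    have h3 := hmin _ h1 h2
    rwa [hvol] at h3
  obtain ⟨y, hy, hyc⟩ := cen_none hK' hT' hmin'
  rw [← hyc, hinv y]
  exact hy

end Pool.Agent.Helper77.LM
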