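import Pool.Agent.Helper78.LM.Goals

/-!
# Project LM, packet PDD: decomposition of pushdown runs

Author: helper77.
-/

namespace Pool.Agent.Helper77.LM

open Pool.Agent.Helper78.LM

/-- the contribution of a move -/
def gm (nQ : ℕ) (l : List Stage) (mv : Move) (j q' : ℕ) : ℕ :=
  match mv.2 with
  | [] => if j + 1 = 1 ∧ mv.1 = q' then 1 else 0
  | [a] => pop nQ l mv.1 a j q'
  | a :: b :: _ => ∑ k1 ∈ Finset.range (j + 1), ∑ q1 ∈ Finset.range nQ,
      pop nQ l mv.1 a k1 q1 * pop nQ (l.drop k1) q1 b (j - k1) q'

theorem pop_zero (nQ : ℕ) (l : List Stage) (q s q' : ℕ) : pop nQ l q s 0 q' = 0 := by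
  cases l with
  | nil => rw [pop]
  | cons S l => rw [pop]; simp

theorem pop_succ (nQ : ℕ) (S : Stage) (l : List Stage) (q s j q' : ℕ) :
    pop nQ (S :: l) q s (j + 1) q' = ((moves S q s).map fun mv => gm nQ l mv j q').sum := by
  rw [pop, if_neg (Nat.succ_ne_zero j)]
  rfl

theorem triangle (L : ℕ) (f : ℕ → ℕ → ℕ) :
    ∑ j ∈ Finset.range (L + 1), ∑ k ∈ Finset.range (j + 1), f k (j - k)
      = ∑ k ∈ Finset.range (L + 1), ∑ i ∈ Finset.range (L - k + 1), f k i := by
  have h1 : ∑ j ∈ Finset.range (L + 1), ∑ k ∈ Finset.range (j + 1), f k (j - k)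
      = ∑ k ∈ Finset.range (L + 1), ∑ j ∈ Finset.Ico k (L + 1), f k (j - k) := by
    refine Finset.sum_comm' fun j k => ?_
    simp only [Finset.mem_range, Finset.mem_Ico]
    omega
  rw [h1]
  refine Finset.sum_congr rfl fun k hk => ?_
  rw [Finset.sum_Ico_eq_sum_range]
  have h2 : L + 1 - k = L - k + 1 := by
    have := Finset.mem_range.mp hk
    omega
  rw [h2]
  refine Finset.sum_congr rfl fun i _ => ?_
  rw [Nat.add_sub_cancel_left]

theorem list_sum_comm {ι : Type} (l : List Move) (s : Finset ι) (f : Move → ι → ℕ) :
    (l.map fun mv => ∑ i ∈ s, f mv i).sum = ∑ i ∈ s, (l.map fun mv => f mv i).sum := by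
  induction l with
  | nil => simp
  | cons a l ih => simp only [List.map_cons, List.sum_cons, ih, Finset.sum_add_distrib]

theorem list_sum_mul (l : List Move) (f : Move → ℕ) (c : ℕ) :
    (l.map f).sum * c = (l.map fun mv => f mv * c).sum := by
  induction l with
  | nil => simp
  | cons a l ih => simp only [List.map_cons, List.sum_cons, add_mul, ih]

theorem good_drop {nQ nS : ℕ} {l : List Stage} (h : Good nQ nS l) (k : ℕ) : Good nQ nS (l.drop k) :=
  fun S hS => h S (List.mem_of_mem_drop hS)

theorem main (F : List ℕ) (nQ nS : ℕ) : ∀ (m : ℕ) (l : List Stage), l.length = m → Good nQ nS l →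
    ∀ (q s : ℕ) (st : List ℕ), cnt F l q (s :: st) =
      ∑ k ∈ Finset.range (l.length + 1), ∑ q1 ∈ Finset.range nQ,
        pop nQ l q s k q1 * cnt F (l.drop k) q1 st := by
  intro m
  induction m using Nat.strong_induction_on with
  | _ m ih =>
    intro l hl hG q s st
    rcases l with _ | ⟨S, l⟩
    · simp [cnt, pop_zero]
    · have hl' : l.length < m := by
        rw [← hl]; simp
      have hG' : Good nQ nS l := fun T hT => hG T (List.mem_cons_of_mem _ hT)
      have IH := ih l.length hl' l rfl hG'
      -- right side
      have hR : ∑ k ∈ Finset.range ((S :: l).length + 1), ∑ q1 ∈ Finset.range nQ,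
          pop nQ (S :: l) q s k q1 * cnt F ((S :: l).drop k) q1 st
          = ((moves S q s).map fun mv => ∑ j ∈ Finset.range (l.length + 1), ∑ q1 ∈ Finset.range nQ,
            gm nQ l mv j q1 * cnt F (l.drop j) q1 st).sum := by
        rw [List.length_cons, Finset.sum_range_succ']
        simp only [pop_zero, zero_mul, Finset.sum_const_zero, add_zero, List.drop_succ_cons]
        rw [list_sum_comm]
        refine Finset.sum_congr rfl fun j _ => ?_
        rw [list_sum_comm]
        refine Finset.sum_congr rfl fun q1 _ => ?_
        rw [pop_succ, list_sum_mul]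
      rw [hR, cnt]
      congr 1
      refine List.map_congr_left fun mv hmv => ?_
      obtain ⟨h1, h2, -⟩ := hG S List.mem_cons_self q s mv hmv
      rcases mv with ⟨p, u⟩
      simp only at h1 h2
      rcases u with _ | ⟨a, _ | ⟨b, _ | ⟨c, u⟩⟩⟩
      · -- no symbol
        simp only [gm, List.nil_append, List.tail_cons]
        rw [Finset.sum_eq_single 0, Finset.sum_eq_single p]
        · simp
        · intro q1 _ hq
          rw [if_neg (by intro h; exact hq h.2.symm), zero_mul]
        · intro h
          exact absurd (Finset.mem_range.mpr h1) h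
        · intro j _ hj
          refine Finset.sum_eq_zero fun q1 _ => ?_
          rw [if_neg (by intro h; exact hj (by omega)), zero_mul]
        · intro h
          exact absurd (Finset.mem_range.mpr (Nat.succ_pos _)) h
      · -- one symbol
        simp only [gm, List.cons_append, List.nil_append, List.tail_cons]
        exact IH p a st
      · -- two symbols
        simp only [gm, List.cons_append, List.nil_append, List.tail_cons]
        rw [IH p a (b :: st)]
        have h3 : ∀ k ∈ Finset.range (l.length + 1), (∑ q2 ∈ Finset.range nQ,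
            pop nQ l p a k q2 * cnt F (l.drop k) q2 (b :: st))
            = ∑ i ∈ Finset.range (l.length - k + 1), ∑ q1 ∈ Finset.range nQ, ∑ q2 ∈ Finset.range nQ,
              pop nQ l p a k q2 * pop nQ (l.drop k) q2 b i q1 * cnt F (l.drop (k + i)) q1 st := by
          intro k hk
          have h4 : ∀ q2, cnt F (l.drop k) q2 (b :: st) = ∑ i ∈ Finset.range (l.length - k + 1),
              ∑ q1 ∈ Finset.range nQ,
              pop nQ (l.drop k) q2 b i q1 * cnt F (l.drop (k + i)) q1 st := by
            intro q2
            have h5 := ih (l.drop k).length (by rw [List.length_drop]; omega) (l.drop k) rfl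
              (good_drop hG' k) q2 b st
            rw [List.length_drop] at h5
            rw [h5]
            refine Finset.sum_congr rfl fun i _ => Finset.sum_congr rfl fun q1 _ => ?_
            rw [List.drop_drop]
          simp_rw [h4, Finset.mul_sum]
          rw [Finset.sum_comm]
          refine Finset.sum_congr rfl fun i _ => ?_
          rw [Finset.sum_comm]
          refine Finset.sum_congr rfl fun q1 _ => Finset.sum_congr rfl fun q2 _ => ?_
          ring
        rw [Finset.sum_congr rfl h3]
        rw [← triangle l.length (fun k i => ∑ q1 ∈ Finset.range nQ, ∑ q2 ∈ Finset.range nQ,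
              pop nQ l p a k q2 * pop nQ (l.drop k) q2 b i q1 * cnt F (l.drop (k + i)) q1 st)]
        refine Finset.sum_congr rfl fun j hj => ?_
        rw [Finset.sum_comm]
        refine Finset.sum_congr rfl fun q1 _ => ?_
        rw [Finset.sum_mul]
        refine Finset.sum_congr rfl fun k hk => ?_
        rw [Finset.sum_mul]
        refine Finset.sum_congr rfl fun q2 _ => ?_
        have h6 : k + (j - k) = j := by
          have := Finset.mem_range.mp hk
          omega
        rw [h6]
      · simp only [List.length_cons] at h2
        omega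

/-- packet PDD -/
theorem pdd : PddStmt := fun F nQ nS l hG => main F nQ nS l.length l rfl hG

end Pool.Agent.Helper77.LM
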